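import Pool.Agent.Results.MP_611b97_al.Extend

set_option autoImplicit false

namespace Pool.Agent.Helper351.FO

open Pool.Agent.Results.MP_611b97_al.Extend

variable {G : Type} [Group G] {H : Subgroup G} {P : Set G}

/-- convex subgroup generated by a positive element -/
lemma exists_hull (hP : IsInvCone H P) {h : G} (hh : h ∈ P) :
    ∃ D : Subgroup G, IsConvex H P D ∧ h ∈ D ∧ ∀ D' : Subgroup G, IsConvex H P D' → h ∈ D' → D ≤ D' := by
  let E : Subgroup G :=
    { carrier := {z | z ∈ H ∧ ∃ k : ℕ, z⁻¹ * h ^ k ∈ P ∧ z * h ^ k ∈ P}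
      one_mem' := ⟨H.one_mem, 1, by simpa using hh, by simpa using hh⟩
      inv_mem' := by
        rintro z ⟨h1, k, h2, h3⟩
        exact ⟨H.inv_mem h1, k, by simpa using h3, h2⟩
      mul_mem' := by
        rintro z1 z2 ⟨h1, k, h2, h3⟩ ⟨h4, l, h5, h6⟩
        refine ⟨H.mul_mem h1 h4, k + l, ?_, ?_⟩
        · have e : (z1 * z2)⁻¹ * h ^ (k + l) = (z2⁻¹ * (z1⁻¹ * h ^ k) * z2) * (z2⁻¹ * h ^ l) := by
            rw [pow_add]; group
          rw [e]; exact hP.mul _ (P_conj' hP z2 h2) _ h5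
        · have e : z1 * z2 * h ^ (k + l) = (z1 * (z2 * h ^ l) * z1⁻¹) * (z1 * h ^ k) := by
            rw [add_comm, pow_add]; group
          rw [e]; exact hP.mul _ (hP.conj z1 _ h6) _ h3 }
  have hE : IsConvex H P E := by
    constructor
    · intro z hz; exact hz.1
    · rintro x ⟨h1, k, h2, h3⟩ y hy hyx
      refine ⟨hP.sub hy, k, ?_, ?_⟩
      · have e : y⁻¹ * h ^ k = (y⁻¹ * x) * (x⁻¹ * h ^ k) := by group
        rw [e]; exact hP.mul _ hyx _ h2
      · rcases Nat.eq_zero_or_pos k with hk | hk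
        · rw [hk, pow_zero, mul_one]; exact hy
        · exact hP.mul _ hy _ (P_pow hP hh hk)
  refine ⟨E, hE, ?_, ?_⟩
  · refine ⟨hP.sub hh, 2, ?_, ?_⟩
    · have e : h⁻¹ * h ^ 2 = h := by rw [pow_two]; group
      rw [e]; exact hh
    · have e : h * h ^ 2 = h ^ 3 := by rw [← pow_succ']
      rw [e]; exact P_pow hP hh (by norm_num)
  · intro D' hD' hhD'
    rintro z ⟨h1, k, h2, h3⟩
    by_cases hz1 : z = 1
    · rw [hz1]; exact D'.one_mem
    · rcases hP.tot z h1 hz1 with h | h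
      · exact hD'.conv _ (D'.pow_mem hhD' k) _ h h2
      · have := hD'.conv _ (D'.pow_mem hhD' k) _ h (by simpa using h3)
        simpa using D'.inv_mem this

/-- largest convex subgroup not containing a positive element -/
lemma exists_core (hP : IsInvCone H P) {h : G} (hh : h ∈ P) :
    ∃ C : Subgroup G, IsConvex H P C ∧ h ∉ C ∧ ∀ D' : Subgroup G, IsConvex H P D' → h ∉ D' → D' ≤ C := by
  have hbot : IsConvex H P (⊥ : Subgroup G) := by
    constructor
    · exact bot_le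
    · intro x hx y hy hyx
      rw [Subgroup.mem_bot] at hx
      rw [hx, mul_one] at hyx
      exact absurd hyx (P_not_inv hP hy)
  have hhb : h ∉ (⊥ : Subgroup G) := by
    intro h'
    rw [Subgroup.mem_bot] at h'
    rw [h'] at hh
    exact hP.one hh
  let E : Subgroup G :=
    { carrier := {z | ∃ D' : Subgroup G, IsConvex H P D' ∧ h ∉ D' ∧ z ∈ D'}
      one_mem' := ⟨⊥, hbot, hhb, Subgroup.one_mem _⟩
      inv_mem' := by
        rintro z ⟨D', h1, h2, h3⟩
        exact ⟨D', h1, h2, D'.inv_mem h3⟩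
      mul_mem' := by
        rintro z1 z2 ⟨D1, h1, h2, h3⟩ ⟨D2, h4, h5, h6⟩
        rcases convex_chain hP h1 h4 with hle | hle
        · exact ⟨D2, h4, h5, D2.mul_mem (hle h3) h6⟩
        · exact ⟨D1, h1, h2, D1.mul_mem h3 (hle h6)⟩ }
  refine ⟨E, ?_, ?_, ?_⟩
  · constructor
    · rintro z ⟨D', h1, h2, h3⟩
      exact h1.le h3
    · rintro x ⟨D', h1, h2, h3⟩ y hy hyx
      exact ⟨D', h1, h2, h1.conv x h3 y hy hyx⟩
  · rintro ⟨D', h1, h2, h3⟩
    exact h2 h3
  · intro D' h1 h2 z hz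
    exact ⟨D', h1, h2, hz⟩

/-- if the generators commute with everything in `R` modulo `C` then so does all of `L` -/
lemma comm_le {L R C : Subgroup G} {S : Set G} (hL : L = Subgroup.closure S)
    (_hRL : ∀ l ∈ L, ∀ x ∈ R, l * x * l⁻¹ ∈ R)
    (hC : ∀ l ∈ L, ∀ x ∈ C, l * x * l⁻¹ ∈ C)
    (h : ∀ s ∈ S, ∀ x ∈ R, x⁻¹ * s⁻¹ * x * s ∈ C) : ⁅R, L⁆ ≤ C := by
  rw [Subgroup.commutator_le]
  intro x hx l hl
  have key : ∀ l ∈ L, ∀ x ∈ R, x * l * x⁻¹ * l⁻¹ ∈ C := by
    intro l hl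
    have hl' : l ∈ Subgroup.closure S := by rw [← hL]; exact hl
    induction hl' using Subgroup.closure_induction with
    | mem s hs =>
      intro x hx
      have hsL : s ∈ L := hl
      -- x s x⁻¹ s⁻¹ = s (s⁻¹ x s x⁻¹) s⁻¹ ; and x⁻¹ s⁻¹ x s ∈ C
      have h1 := h s hs (x⁻¹) (R.inv_mem hx)
      -- x s⁻¹ x⁻¹ s
      have h2 := C.inv_mem h1
      -- s⁻¹ x s x⁻¹
      have h3 := hC s hsL _ h2
      have e : s * ((x⁻¹)⁻¹ * s⁻¹ * x⁻¹ * s)⁻¹ * s⁻¹ = x * s * x⁻¹ * s⁻¹ := by group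
      rwa [e] at h3
    | one => intro x _; simpa using C.one_mem
    | mul g k hg hk ihg ihk =>
      intro x hx
      have hgL : g ∈ L := by rw [hL]; exact hg
      have hkL : k ∈ L := by rw [hL]; exact hk
      have h1 := ihg hgL x hx
      have h2 := hC g hgL _ (ihk hkL x hx)
      have e : x * (g * k) * x⁻¹ * (g * k)⁻¹ = (x * g * x⁻¹ * g⁻¹) * (g * (x * k * x⁻¹ * k⁻¹) * g⁻¹) := by
        group
      rw [e]
      exact C.mul_mem h1 h2
    | inv g hg ih =>
      intro x hx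
      have hgL : g ∈ L := by rw [hL]; exact hg
      have h1 := hC g⁻¹ (L.inv_mem hgL) _ (C.inv_mem (ih hgL x hx))
      have e : g⁻¹ * (x * g * x⁻¹ * g⁻¹)⁻¹ * (g⁻¹)⁻¹ = x * g⁻¹ * x⁻¹ * (g⁻¹)⁻¹ := by group
      rwa [e] at h1
  have := key l hl x hx
  rwa [commutatorElement_def]

/-- power collection modulo the commutator subgroup -/
lemma pow_comm {L : Subgroup G} {a b x : G} (hL : L = Subgroup.closure {a, b}) (hx : x ∈ L) (N : ℕ) :
    ∃ i j : ℤ, x ^ N * ((b ^ N) ^ j)⁻¹ * ((a ^ N) ^ i)⁻¹ ∈ ⁅L, L⁆ := by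
  have haL : a ∈ L := by rw [hL]; exact Subgroup.subset_closure (by simp)
  have hbL : b ∈ L := by rw [hL]; exact Subgroup.subset_closure (by simp)
  -- the abelianisation of L
  let q : L →* Abelianization L := Abelianization.of
  have hmem : ∀ z : L, q z = 1 → (z : G) ∈ ⁅L, L⁆ := by
    intro z hz
    have h1 : z ∈ commutator L := by
      rw [← Abelianization.ker_of]; exact hz
    have h2 : (commutator L).map L.subtype = ⁅L, L⁆ := by
      rw [commutator_def, Subgroup.map_commutator]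
      simp [← MonoidHom.range_eq_map]
    rw [← h2]
    exact ⟨z, h1, rfl⟩
  have hgen : ∀ z (hz : z ∈ L), ∃ i j : ℤ, q ⟨z, hz⟩ = q ⟨a, haL⟩ ^ i * q ⟨b, hbL⟩ ^ j := by
    intro z hz
    have hz' : z ∈ Subgroup.closure {a, b} := by rw [← hL]; exact hz
    induction hz' using Subgroup.closure_induction with
    | mem s hs =>
      rcases hs with rfl | hs
      · exact ⟨1, 0, by simp⟩
      · rw [Set.mem_singleton_iff] at hs
        subst hs
        exact ⟨0, 1, by simp⟩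
    | one => exact ⟨0, 0, by
        have : (⟨1, hz⟩ : L) = 1 := rfl
        rw [this]; simp⟩
    | mul g k hg hk ihg ihk =>
      have hgL : g ∈ L := by rw [hL]; exact hg
      have hkL : k ∈ L := by rw [hL]; exact hk
      obtain ⟨i, j, h1⟩ := ihg hgL
      obtain ⟨i', j', h2⟩ := ihk hkL
      refine ⟨i + i', j + j', ?_⟩
      have e : (⟨g * k, hz⟩ : L) = ⟨g, hgL⟩ * ⟨k, hkL⟩ := rfl
      rw [e, map_mul, h1, h2, zpow_add, zpow_add]
      exact mul_mul_mul_comm _ _ _ _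
    | inv g hg ih =>
      have hgL : g ∈ L := by rw [hL]; exact hg
      obtain ⟨i, j, h1⟩ := ih hgL
      refine ⟨-i, -j, ?_⟩
      have e : (⟨g⁻¹, hz⟩ : L) = ⟨g, hgL⟩⁻¹ := rfl
      rw [e, map_inv, h1, zpow_neg, zpow_neg, mul_inv]
  obtain ⟨i, j, hij⟩ := hgen x hx
  refine ⟨i, j, ?_⟩
  have h3 := hmem (⟨x, hx⟩ ^ N * ((⟨b, hbL⟩ ^ N) ^ j)⁻¹ * ((⟨a, haL⟩ ^ N) ^ i)⁻¹) ?_
  · simpa using h3
  · rw [map_mul, map_mul, map_pow, map_inv, map_inv, map_zpow, map_zpow, map_pow, map_pow, hij]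
    generalize q ⟨a, haL⟩ = u
    generalize q ⟨b, hbL⟩ = v
    have e1 : (u ^ i * v ^ j) ^ N = (u ^ N) ^ i * (v ^ N) ^ j := by
      rw [mul_pow, ← zpow_natCast (u ^ i), ← zpow_natCast (v ^ j), ← zpow_natCast u, ← zpow_natCast v,
        ← zpow_mul, ← zpow_mul, ← zpow_mul, ← zpow_mul, mul_comm i, mul_comm j]
    rw [e1]; group

end Pool.Agent.Helper351.FO
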