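import Pool.Agent.Helper351.FO.A1

set_option autoImplicit false

namespace Pool.Agent.Helper351.FO

open Pool.Agent.Results.MP_611b97_al.Extend

variable {G : Type} [Group G] {H : Subgroup G} {P : Set G}

/-- If `H ∩ [L,L]` is torsion modulo `[H ∩ L, L]` for `L = ⟨a,b⟩` then the product of
`a, b ∈ QQ P` is in `QQ P`. -/
theorem closed_of_H2 [H.Normal] (hP : IsInvCone H P)
    (hper : ∀ g : G, ∃ n : ℕ, 1 ≤ n ∧ g ^ n ∈ H) {a b : G}
    (hH2 : ∀ r ∈ H ⊓ ⁅Subgroup.closure {a, b}, Subgroup.closure {a, b}⁆,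
      ∃ n : ℕ, 1 ≤ n ∧ r ^ n ∈ ⁅H ⊓ Subgroup.closure {a, b}, Subgroup.closure {a, b}⁆)
    (ha : a ∈ QQ P) (hb : b ∈ QQ P) : a * b ∈ QQ P := by
  set L : Subgroup G := Subgroup.closure {a, b} with hL
  set R : Subgroup G := H ⊓ L with hR
  have haL : a ∈ L := Subgroup.subset_closure (by simp)
  have hbL : b ∈ L := Subgroup.subset_closure (by simp)
  -- common exponent
  obtain ⟨n1, hn1, ha1⟩ := ha
  obtain ⟨n2, hn2, hb1⟩ := hb
  obtain ⟨n3, hn3, hab1⟩ := hper (a * b)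
  obtain ⟨N, hN, haN, hbN, habN⟩ : ∃ N : ℕ, 1 ≤ N ∧ a ^ N ∈ P ∧ b ^ N ∈ P ∧ (a * b) ^ N ∈ H := by
    refine ⟨n1 * n2 * n3, Nat.one_le_iff_ne_zero.mpr (by positivity), ?_, ?_, ?_⟩
    · rw [mul_assoc, pow_mul]
      exact P_pow hP ha1 (Nat.one_le_iff_ne_zero.mpr (by positivity))
    · rw [mul_comm n1 n2, mul_assoc, pow_mul]
      exact P_pow hP hb1 (Nat.one_le_iff_ne_zero.mpr (by positivity))
    · rw [mul_comm, pow_mul]
      exact H.pow_mem hab1 _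
  set h : G := a ^ N * b ^ N with hh
  have hhP : h ∈ P := hP.mul _ haN _ hbN
  obtain ⟨D, hD, hhD, hDmin⟩ := exists_hull hP hhP
  obtain ⟨C, hC, hhC, hCmax⟩ := exists_core hP hhP
  have hCD : C < D := by
    refine lt_of_le_of_ne ?_ ?_
    · rcases convex_chain hP hC hD with h1 | h1
      · exact h1
      · exact absurd (h1 hhD) hhC
    · intro he; rw [he] at hhC; exact hhC hhD
  have hmax : ∀ D' : Subgroup G, IsConvex H P D' → D' < D → D' ≤ C := by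
    intro D' hD' hlt
    apply hCmax D' hD'
    intro h1
    exact absurd (hDmin D' hD' h1) (not_le_of_gt hlt)
  have haD : a ^ N ∈ D := by
    refine hD.conv h hhD _ haN ?_
    have e : (a ^ N)⁻¹ * h = b ^ N := by rw [hh]; group
    rw [e]; exact hbN
  have hbD : b ^ N ∈ D := by
    refine hD.conv h hhD _ hbN ?_
    have e : (b ^ N)⁻¹ * h = (b ^ N)⁻¹ * a ^ N * b ^ N := by rw [hh]; group
    rw [e]; exact P_conj' hP _ haN
  -- L normalises D and C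
  have hLD : ∀ g ∈ L, ∀ x, x ∈ D ↔ g * x * g⁻¹ ∈ D := by
    intro g hg
    induction hg using Subgroup.closure_induction with
    | mem g hg =>
      rcases hg with rfl | hg
      · exact normalizes hP hD hN haD
      · rw [Set.mem_singleton_iff] at hg
        subst hg
        exact normalizes hP hD hN hbD
    | one => intro x; simp
    | mul g h _ _ ihg ihh =>
      intro x
      rw [ihh x, ihg]
      have e : g * (h * x * h⁻¹) * g⁻¹ = g * h * x * (g * h)⁻¹ := by group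
      rw [e]
    | inv g _ ih => exact norm_inv ih
  have hLD1 : ∀ g ∈ L, ∀ x ∈ D, g * x * g⁻¹ ∈ D := fun g hg x hx => (hLD g hg x).mp hx
  have hLC : ∀ g ∈ L, ∀ x ∈ C, g * x * g⁻¹ ∈ C := fun g hg =>
    norm_D hP hC hCD hmax (hLD g hg)
  have hDC : ∀ g ∈ D, ∀ x ∈ C, g * x * g⁻¹ ∈ C := fun g hg =>
    norm_D hP hC hCD hmax (fun x => ⟨fun hx => D.mul_mem (D.mul_mem hg hx) (D.inv_mem hg), fun hx => by
      have := D.mul_mem (D.mul_mem (D.inv_mem hg) hx) hg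
      have e : g⁻¹ * (g * x * g⁻¹) * g = x := by group
      rwa [e] at this⟩)
  have hLR : ∀ l ∈ L, ∀ x ∈ R, l * x * l⁻¹ ∈ R := by
    intro l hl x hx
    exact ⟨(inferInstance : H.Normal).conj_mem x hx.1 l, L.mul_mem (L.mul_mem hl hx.2) (L.inv_mem hl)⟩
  -- step 1: a, b centralise R modulo D
  have c1 : ∀ c : G, c ∈ L → c ^ N ∈ D → ∀ x ∈ R, x⁻¹ * c⁻¹ * x * c ∈ D := by
    intro c hc hcD x hx
    refine tele hP hD hx.1 (hLD1 c hc) hN ?_
    have h1 := hLD1 x⁻¹ (L.inv_mem hx.2) _ (D.inv_mem hcD)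
    have h2 := D.mul_mem h1 hcD
    have e : x⁻¹ * (c ^ N)⁻¹ * (x⁻¹)⁻¹ * c ^ N = x⁻¹ * (c ^ N)⁻¹ * x * c ^ N := by group
    rwa [e] at h2
  have hRD0 : ⁅R, L⁆ ≤ D := by
    refine comm_le hL hLR hLD1 ?_
    intro s hs x hx
    rcases hs with rfl | hs
    · exact c1 _ haL haD x hx
    · rw [Set.mem_singleton_iff] at hs
      subst hs
      exact c1 _ hbL hbD x hx
  -- step 2: R ≤ D
  have haH : a ^ N ∈ H := hP.sub haN
  have hbH : b ^ N ∈ H := hP.sub hbN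
  have hRD : R ≤ D := by
    intro x hx
    obtain ⟨i, j, hij⟩ := pow_comm hL hx.2 N
    have h1 : x ^ N * ((b ^ N) ^ j)⁻¹ * ((a ^ N) ^ i)⁻¹ ∈ H :=
      H.mul_mem (H.mul_mem (H.pow_mem hx.1 _) (H.inv_mem (H.zpow_mem hbH _))) (H.inv_mem (H.zpow_mem haH _))
    obtain ⟨n, hn, h2⟩ := hH2 _ ⟨h1, hij⟩
    have h3 := convex_root hP hD h1 hn (hRD0 h2)
    have h4 : x ^ N ∈ D := by
      have h5 := D.mul_mem (D.mul_mem h3 (D.zpow_mem haD i)) (D.zpow_mem hbD j)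
      have e : x ^ N * ((b ^ N) ^ j)⁻¹ * ((a ^ N) ^ i)⁻¹ * (a ^ N) ^ i * (b ^ N) ^ j = x ^ N := by group
      rwa [e] at h5
    exact convex_root hP hD hx.1 hN h4
  -- step 3: a, b centralise R modulo C
  have c2 : ∀ c : G, c ∈ L → c ^ N ∈ D → ∀ x ∈ R, x⁻¹ * c⁻¹ * x * c ∈ C := by
    intro c hc hcD x hx
    refine tele hP hC hx.1 (hLC c hc) hN ?_
    exact comm_mod hP hD hC hCD hmax hDC x (c ^ N) (hRD hx) hcD
  have hRC : ⁅R, L⁆ ≤ C := by
    refine comm_le hL hLR hLC ?_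
    intro s hs x hx
    rcases hs with rfl | hs
    · exact c2 _ haL haD x hx
    · rw [Set.mem_singleton_iff] at hs
      subst hs
      exact c2 _ hbL hbD x hx
  -- step 4
  have hw1 : (a * b) ^ N * (b ^ N)⁻¹ * (a ^ N)⁻¹ ∈ ⁅L, L⁆ := by
    have h2 : (commutator L).map L.subtype = ⁅L, L⁆ := by
      rw [commutator_def, Subgroup.map_commutator]
      simp [← MonoidHom.range_eq_map]
    rw [← h2]
    refine ⟨(⟨a, haL⟩ * ⟨b, hbL⟩) ^ N * (⟨b, hbL⟩ ^ N)⁻¹ * (⟨a, haL⟩ ^ N)⁻¹, ?_, rfl⟩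
    rw [SetLike.mem_coe, ← Abelianization.ker_of, MonoidHom.mem_ker, map_mul, map_mul, map_pow, map_inv,
      map_inv, map_pow, map_pow, map_mul, mul_pow]
    group
  have hw2 : (a * b) ^ N * (b ^ N)⁻¹ * (a ^ N)⁻¹ ∈ H :=
    H.mul_mem (H.mul_mem habN (H.inv_mem hbH)) (H.inv_mem haH)
  obtain ⟨n, hn, h2⟩ := hH2 _ ⟨hw2, hw1⟩
  have hwC := convex_root hP hC hw2 hn (hRC h2)
  set w := (a * b) ^ N * (b ^ N)⁻¹ * (a ^ N)⁻¹ with hw
  have e : (a * b) ^ N = w * h := by rw [hw, hh]; group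
  refine ⟨N, hN, ?_⟩
  by_cases h1 : (a * b) ^ N = 1
  · exfalso
    apply hhC
    have e2 : h = w⁻¹ := by
      rw [h1] at e
      exact (inv_eq_of_mul_eq_one_right e.symm).symm
    rw [e2]; exact C.inv_mem hwC
  · rcases hP.tot _ habN h1 with h3 | h3
    · exact h3
    · exfalso
      apply hhC
      refine hC.conv w⁻¹ (C.inv_mem hwC) h hhP ?_
      rw [e, mul_inv_rev] at h3
      exact h3

theorem extends_of_H2 [H.Normal] (hP : IsInvCone H P)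
    (htf : ∀ g : G, ∀ n : ℕ, 1 ≤ n → g ^ n = 1 → g = 1)
    (hper : ∀ g : G, ∃ n : ℕ, 1 ≤ n ∧ g ^ n ∈ H)
    (hH2 : ∀ a b : G, ∀ r ∈ H ⊓ ⁅Subgroup.closure {a, b}, Subgroup.closure {a, b}⁆,
      ∃ n : ℕ, 1 ≤ n ∧ r ^ n ∈ ⁅H ⊓ Subgroup.closure {a, b}, Subgroup.closure {a, b}⁆) :
    Extends H P :=
  extends_of_closed hP htf hper (fun a ha b hb => closed_of_H2 hP hper (hH2 a b) ha hb)

end Pool.Agent.Helper351.FO
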