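import Pool.Agent.Helper351.FO.A2

set_option autoImplicit false

namespace Pool.Agent.Helper351.FO

open Pool.Agent.Results.MP_611b97_al.Extend
open scoped commutatorElement

/-- an element of infinite order of an abelian group is detected by a map to the rationals -/
lemma hom_rat {A : Type} [CommGroup A] (x : A) (hx : ∀ n : ℕ, 1 ≤ n → x ^ n ≠ 1) :
    ∃ f : A →* Multiplicative ℚ, f x = Multiplicative.ofAdd 1 := by
  let g : ℤ →+ Additive A := zmultiplesHom (Additive A) (Additive.ofMul x)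
  have hg : Function.Injective g := by
    rw [injective_iff_map_eq_zero]
    intro n hn
    have h1 : x ^ n = 1 := by
      have h2 : (n • Additive.ofMul x) = 0 := hn
      exact h2
    by_contra h0
    rcases le_or_gt 0 n with h | h
    · obtain ⟨m, rfl⟩ := Int.eq_ofNat_of_zero_le h
      have : 1 ≤ m := by
        rcases Nat.eq_zero_or_pos m with h3 | h3
        · subst h3; simp at h0
        · exact h3
      exact hx m this (by simpa using h1)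
    · obtain ⟨m, hm⟩ := Int.eq_ofNat_of_zero_le (by omega : 0 ≤ -n)
      have h4 : 1 ≤ m := by omega
      refine hx m h4 ?_
      have h5 : x ^ (-n) = 1 := by rw [zpow_neg, h1, inv_one]
      rw [hm] at h5
      simpa using h5
  obtain ⟨f, hf⟩ := (Module.Baer.of_divisible ℚ).extension_property_addMonoidHom g hg (Int.castAddHom ℚ)
  refine ⟨AddMonoidHom.toMultiplicativeRight f, ?_⟩
  have h1 : f (g 1) = 1 := by
    have := DFunLike.congr_fun hf 1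
    simpa using this
  have h2 : g 1 = Additive.ofMul x := by simp [g]
  rw [h2] at h1
  change Multiplicative.ofAdd (f (Additive.ofMul x)) = _
  rw [h1]

variable {G : Type} [Group G]

/-- the lexicographic invariant cone on `H` given by an invariant map to the rationals -/
lemma lex_cone (H : Subgroup G) [H.Normal] (P0 : Set G)
    (hmul : ∀ a ∈ P0, ∀ b ∈ P0, a * b ∈ P0) (h1 : (1 : G) ∉ P0)
    (htot : ∀ g : G, g ≠ 1 → g ∈ P0 ∨ g⁻¹ ∈ P0) (hconj : ∀ g : G, ∀ a ∈ P0, g * a * g⁻¹ ∈ P0)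
    (f : H →* Multiplicative ℚ)
    (hf : ∀ g : G, ∀ h (hh : h ∈ H) (hh' : g * h * g⁻¹ ∈ H), f ⟨g * h * g⁻¹, hh'⟩ = f ⟨h, hh⟩) :
    IsInvCone H {x | ∃ hx : x ∈ H, 0 < (f ⟨x, hx⟩).toAdd ∨ ((f ⟨x, hx⟩).toAdd = 0 ∧ x ∈ P0)} := by
  constructor
  · rintro x ⟨hx, _⟩; exact hx
  · rintro a ⟨ha, ha'⟩ b ⟨hb, hb'⟩
    refine ⟨H.mul_mem ha hb, ?_⟩
    have e : (f ⟨a * b, H.mul_mem ha hb⟩).toAdd = (f ⟨a, ha⟩).toAdd + (f ⟨b, hb⟩).toAdd := by
      have : (⟨a * b, H.mul_mem ha hb⟩ : H) = ⟨a, ha⟩ * ⟨b, hb⟩ := rfl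
      rw [this, map_mul, toAdd_mul]
    rw [e]
    rcases ha' with ha' | ⟨ha', ha''⟩ <;> rcases hb' with hb' | ⟨hb', hb''⟩
    · left; linarith
    · left; linarith
    · left; linarith
    · right; exact ⟨by linarith, hmul _ ha'' _ hb''⟩
  · rintro ⟨hx, hx'⟩
    have : (⟨1, hx⟩ : H) = 1 := rfl
    rw [this, map_one, toAdd_one] at hx'
    rcases hx' with hx' | hx'
    · exact lt_irrefl _ hx'
    · exact h1 hx'.2
  · intro x hx hx1
    have e : (f ⟨x⁻¹, H.inv_mem hx⟩).toAdd = - (f ⟨x, hx⟩).toAdd := by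
      have : (⟨x⁻¹, H.inv_mem hx⟩ : H) = ⟨x, hx⟩⁻¹ := rfl
      rw [this, map_inv, toAdd_inv]
    rcases lt_trichotomy (f ⟨x, hx⟩).toAdd 0 with h | h | h
    · right
      exact ⟨H.inv_mem hx, Or.inl (by rw [e]; linarith)⟩
    · rcases htot x hx1 with h2 | h2
      · left; exact ⟨hx, Or.inr ⟨h, h2⟩⟩
      · right; exact ⟨H.inv_mem hx, Or.inr ⟨by rw [e, h, neg_zero], h2⟩⟩
    · left; exact ⟨hx, Or.inl h⟩
  · rintro g a ⟨ha, ha'⟩
    have hh' : g * a * g⁻¹ ∈ H := (inferInstance : H.Normal).conj_mem a ha g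
    refine ⟨hh', ?_⟩
    rw [hf g a ha hh']
    rcases ha' with ha' | ha'
    · exact Or.inl ha'
    · exact Or.inr ⟨ha'.1, hconj _ _ ha'.2⟩

/-- the subgroup of elements bounded by elements of `K` -/
def hull (Q : Set G) (hmul : ∀ a ∈ Q, ∀ b ∈ Q, a * b ∈ Q)
    (hconj : ∀ g : G, ∀ a ∈ Q, g * a * g⁻¹ ∈ Q) (K : Subgroup G) : Subgroup G where
  carrier := {x | (∃ k ∈ K, x⁻¹ * k ∈ Q ∨ x⁻¹ * k = 1) ∧ (∃ k ∈ K, x * k ∈ Q ∨ x * k = 1)}
  one_mem' := ⟨⟨1, K.one_mem, Or.inr (by simp)⟩, ⟨1, K.one_mem, Or.inr (by simp)⟩⟩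
  inv_mem' := by
    rintro x ⟨h1, h2⟩
    exact ⟨by simpa using h2, h1⟩
  mul_mem' := by
    rintro x y ⟨⟨k, hk, h1⟩, ⟨l, hl, h2⟩⟩ ⟨⟨k', hk', h1'⟩, ⟨l', hl', h2'⟩⟩
    have hm : ∀ u v : G, (u ∈ Q ∨ u = 1) → (v ∈ Q ∨ v = 1) → (u * v ∈ Q ∨ u * v = 1) := by
      rintro u v (hu | rfl) (hv | rfl)
      · exact Or.inl (hmul _ hu _ hv)
      · left; simpa using hu
      · left; simpa using hv
      · right; simp
    have hc : ∀ g u : G, (u ∈ Q ∨ u = 1) → (g * u * g⁻¹ ∈ Q ∨ g * u * g⁻¹ = 1) := by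
      rintro g u (hu | rfl)
      · exact Or.inl (hconj _ _ hu)
      · right; group
    constructor
    · refine ⟨k * k', K.mul_mem hk hk', ?_⟩
      have e : (x * y)⁻¹ * (k * k') = (y⁻¹ * (x⁻¹ * k) * (y⁻¹)⁻¹) * (y⁻¹ * k') := by group
      rw [e]; exact hm _ _ (hc _ _ h1) h1'
    · refine ⟨l' * l, K.mul_mem hl' hl, ?_⟩
      have e : (x * y) * (l' * l) = (x * (y * l') * x⁻¹) * (x * l) := by group
      rw [e]; exact hm _ _ (hc _ _ h2') h2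

/-- If every invariant order on `H` extends to `G`, then `H ∩ [G,G]` is torsion modulo `[H,G]`. -/
theorem H2_of_extends (H : Subgroup G) [H.Normal] (hper : ∀ g : G, ∃ n : ℕ, 1 ≤ n ∧ g ^ n ∈ H)
    (P0 : Set G)
    (hmul : ∀ a ∈ P0, ∀ b ∈ P0, a * b ∈ P0) (h1 : (1 : G) ∉ P0)
    (htot : ∀ g : G, g ≠ 1 → g ∈ P0 ∨ g⁻¹ ∈ P0) (hconj : ∀ g : G, ∀ a ∈ P0, g * a * g⁻¹ ∈ P0)
    (hall : ∀ P : Set G, IsInvCone H P → Extends H P) :
    ∀ r ∈ H ⊓ ⁅(⊤ : Subgroup G), ⊤⁆, ∃ n : ℕ, 1 ≤ n ∧ r ^ n ∈ ⁅H, (⊤ : Subgroup G)⁆ := by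
  rintro r ⟨hrH, hrc⟩
  by_contra hcon
  push Not at hcon
  set M : Subgroup G := ⁅H, (⊤ : Subgroup G)⁆ with hM
  have hMH : M ≤ H := Subgroup.commutator_le_left H ⊤
  set M' : Subgroup H := M.subgroupOf H with hM'
  have hMn : M'.Normal := by
    have : M.Normal := Subgroup.commutator_normal H ⊤
    exact Subgroup.Normal.subgroupOf this H
  have hcomm : ∀ x y : H ⧸ M', x * y = y * x := by
    intro x y
    obtain ⟨x, rfl⟩ := QuotientGroup.mk_surjective x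
    obtain ⟨y, rfl⟩ := QuotientGroup.mk_surjective y
    rw [← QuotientGroup.mk_mul, ← QuotientGroup.mk_mul, QuotientGroup.eq, hM', Subgroup.mem_subgroupOf]
    have h2 : ⁅(y : G)⁻¹, (x : G)⁻¹⁆ ∈ M := Subgroup.commutator_mem_commutator (H.inv_mem y.2) (Subgroup.mem_top _)
    rw [commutatorElement_def] at h2
    have e : (((x * y)⁻¹ * (y * x) : H) : G) = (y : G)⁻¹ * (x : G)⁻¹ * ((y : G)⁻¹)⁻¹ * ((x : G)⁻¹)⁻¹ := by
      simp only [Subgroup.coe_mul, Subgroup.coe_inv]; group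
    rw [e]; exact h2
  let _ : CommGroup (H ⧸ M') := { (inferInstance : Group (H ⧸ M')) with mul_comm := hcomm }
  obtain ⟨f0, hf0⟩ := hom_rat ((⟨r, hrH⟩ : H) : H ⧸ M') (by
    intro n hn h2
    rw [← QuotientGroup.mk_pow, QuotientGroup.eq_one_iff, hM', Subgroup.mem_subgroupOf] at h2
    exact hcon n hn h2)
  set f : H →* Multiplicative ℚ := f0.comp (QuotientGroup.mk' M') with hfdef
  have hfM : ∀ x (hx : x ∈ H), x ∈ M → f ⟨x, hx⟩ = 1 := by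
    intro x hx hxM
    rw [hfdef, MonoidHom.comp_apply, QuotientGroup.mk'_apply]
    have : ((⟨x, hx⟩ : H) : H ⧸ M') = 1 := (QuotientGroup.eq_one_iff _).mpr hxM
    rw [this, map_one]
  have hfr : f ⟨r, hrH⟩ = Multiplicative.ofAdd 1 := hf0
  have hfc : ∀ g : G, ∀ h (hh : h ∈ H) (hh' : g * h * g⁻¹ ∈ H), f ⟨g * h * g⁻¹, hh'⟩ = f ⟨h, hh⟩ := by
    intro g h hh hh'
    have h2 : ⁅h, g⁆ ∈ M := Subgroup.commutator_mem_commutator hh (Subgroup.mem_top _)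
    have h3 : ⁅g, h⁆ ∈ M := by
      have := M.inv_mem h2
      rwa [commutatorElement_inv] at this
    have h4 : (⟨g * h * g⁻¹, hh'⟩ : H) = ⟨⁅g, h⁆, hMH h3⟩ * ⟨h, hh⟩ := by
      apply Subtype.ext
      simp only [Subgroup.coe_mul, commutatorElement_def]; group
    rw [h4, map_mul, hfM _ _ h3, one_mul]
  have hcone := lex_cone H P0 hmul h1 htot hconj f hfc
  obtain ⟨Q, hQmul, hQ1, hQtot, hQconj, hQH⟩ := hall _ hcone
  -- kernel of f
  set K : Subgroup G := f.ker.map H.subtype with hK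
  have hKH : K ≤ H := by
    rintro _ ⟨x, _, rfl⟩; exact x.2
  have hKf : ∀ x (hx : x ∈ H), x ∈ K ↔ f ⟨x, hx⟩ = 1 := by
    intro x hx
    constructor
    · rintro ⟨y, hy, rfl⟩
      exact hy
    · intro h
      exact ⟨⟨x, hx⟩, h, rfl⟩
  have hMK : M ≤ K := fun x hx => (hKf x (hMH hx)).mpr (hfM x (hMH hx) hx)
  set C : Subgroup G := hull Q hQmul hQconj K with hC
  have hQcone : IsInvCone (⊤ : Subgroup G) Q :=
    ⟨fun _ _ => Subgroup.mem_top _, hQmul, hQ1, fun h _ hh => hQtot h hh, hQconj⟩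
  have hKC : K ≤ C := by
    intro k hk
    exact ⟨⟨k, hk, Or.inr (by simp)⟩, ⟨k⁻¹, K.inv_mem hk, Or.inr (by simp)⟩⟩
  have hCconv : IsConvex (⊤ : Subgroup G) Q C := by
    constructor
    · exact le_top
    · rintro x ⟨⟨k, hk, h2⟩, _⟩ y hy hyx
      refine ⟨⟨k, hk, Or.inl ?_⟩, ⟨1, K.one_mem, Or.inl (by simpa using hy)⟩⟩
      have e : y⁻¹ * k = (y⁻¹ * x) * (x⁻¹ * k) := by group
      rw [e]
      rcases h2 with h2 | h2
      · exact hQmul _ hyx _ h2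
      · rw [h2, mul_one]; exact hyx
  have hKn : ∀ g : G, ∀ k ∈ K, g * k * g⁻¹ ∈ K := by
    intro g k hk
    have hh' : g * k * g⁻¹ ∈ H := (inferInstance : H.Normal).conj_mem k (hKH hk) g
    rw [hKf _ hh', hfc g k (hKH hk) hh']
    exact (hKf k (hKH hk)).mp hk
  have hCn : ∀ g : G, ∀ x ∈ C, g * x * g⁻¹ ∈ C := by
    rintro g x ⟨⟨k, hk, h2⟩, ⟨l, hl, h3⟩⟩
    refine ⟨⟨g * k * g⁻¹, hKn g k hk, ?_⟩, ⟨g * l * g⁻¹, hKn g l hl, ?_⟩⟩
    · have e : (g * x * g⁻¹)⁻¹ * (g * k * g⁻¹) = g * (x⁻¹ * k) * g⁻¹ := by group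
      rw [e]
      rcases h2 with h2 | h2
      · exact Or.inl (hQconj _ _ h2)
      · right; rw [h2]; group
    · have e : (g * x * g⁻¹) * (g * l * g⁻¹) = g * (x * l) * g⁻¹ := by group
      rw [e]
      rcases h3 with h3 | h3
      · exact Or.inl (hQconj _ _ h3)
      · right; rw [h3]; group
  have hcc : ∀ a x : G, x⁻¹ * a⁻¹ * x * a ∈ C := by
    intro a x
    obtain ⟨n, hn, han⟩ := hper a
    refine tele hQcone hCconv (Subgroup.mem_top x) (hCn a) hn ?_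
    apply hKC
    apply hMK
    have h2 : ⁅((a ^ n))⁻¹, x⁻¹⁆ ∈ M := Subgroup.commutator_mem_commutator (H.inv_mem han) (Subgroup.mem_top _)
    have h3 := M.inv_mem h2
    rw [commutatorElement_inv, commutatorElement_def] at h3
    have e : x⁻¹ * (a ^ n)⁻¹ * (x⁻¹)⁻¹ * ((a ^ n)⁻¹)⁻¹ = x⁻¹ * (a ^ n)⁻¹ * x * a ^ n := by group
    rwa [e] at h3
  have hle : ⁅(⊤ : Subgroup G), ⊤⁆ ≤ C := by
    rw [Subgroup.commutator_le]
    intro x _ y _
    have := hcc y⁻¹ x⁻¹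
    rw [commutatorElement_def]
    have e : (x⁻¹)⁻¹ * (y⁻¹)⁻¹ * x⁻¹ * y⁻¹ = x * y * x⁻¹ * y⁻¹ := by group
    rwa [e] at this
  obtain ⟨⟨k, hk, h2⟩, _⟩ := hle hrc
  have hkH := hKH hk
  have hz : (r⁻¹ * k)⁻¹ ∈ H := H.inv_mem (H.mul_mem (H.inv_mem hrH) hkH)
  have hzP : (r⁻¹ * k)⁻¹ ∈ Q := by
    rw [hQH _ hz]
    refine ⟨hz, Or.inl ?_⟩
    have e : (⟨(r⁻¹ * k)⁻¹, hz⟩ : H) = (⟨r, hrH⟩⁻¹ * ⟨k, hkH⟩)⁻¹ := rfl
    have e2 : f (⟨(r⁻¹ * k)⁻¹, hz⟩ : H) = Multiplicative.ofAdd 1 := by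
      rw [e]
      rw [map_inv f, map_mul f, map_inv f, (hKf k hkH).mp hk, mul_one, inv_inv, hfr]
    rw [e2, toAdd_ofAdd]
    norm_num
  rcases h2 with h2 | h2
  · have := hQmul _ h2 _ hzP
    rw [mul_inv_cancel] at this
    exact hQ1 this
  · rw [h2, inv_one] at hzP
    exact hQ1 hzP

end Pool.Agent.Helper351.FO
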