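import Mathlib

set_option autoImplicit false

namespace Pool.Agent.Helper351.FO

open Classical

section magnus
variable {α : Type}

noncomputable def tm (a : α) (f : List α → ℤ) : List α → ℤ
  | [] => f []
  | b :: w => f (b :: w) + if b = a then f w else 0

noncomputable def sm (a : α) (f : List α → ℤ) : List α → ℤ
  | [] => f []
  | b :: w => f (b :: w) - if b = a then sm a f w else 0

lemma tm_sm (a : α) (f : List α → ℤ) : tm a (sm a f) = f := by
  funext w
  cases w with
  | nil => rfl
  | cons b w => simp only [tm, sm]; ring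

lemma sm_tm (a : α) (f : List α → ℤ) : sm a (tm a f) = f := by
  funext w
  induction w with
  | nil => rfl
  | cons b w ih => simp only [sm, ih]; simp only [tm]; ring

noncomputable def te (a : α) : Equiv.Perm (List α → ℤ) :=
  ⟨tm a, sm a, fun f => sm_tm a f, fun f => tm_sm a f⟩

@[simp] lemma te_apply (a : α) (f : List α → ℤ) : te a f = tm a f := rfl

lemma ais {X : Type} (σ : Equiv.Perm X) (x : X) : σ (σ⁻¹ x) = x := Equiv.apply_symm_apply σ x

noncomputable def T : FreeGroup α →* Equiv.Perm (List α → ℤ) := FreeGroup.lift te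

def conv (m f : List α → ℤ) (w : List α) : ℤ :=
  ∑ i ∈ Finset.range (w.length + 1), m (w.take i) * f (w.drop i)

def delta (w : List α) : ℤ := match w with
  | [] => 1
  | _ :: _ => 0

lemma delta_nil : delta ([] : List α) = 1 := rfl
lemma delta_ne {w : List α} (h : w ≠ []) : delta w = 0 := by
  cases w with
  | nil => exact absurd rfl h
  | cons b w => rfl

lemma conv_delta (f : List α → ℤ) : conv delta f = f := by
  funext w
  unfold conv
  rw [Finset.sum_eq_single 0]
  · simp [delta]
  · intro i hi hi0
    rw [delta_ne, zero_mul]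
    intro h
    rw [List.take_eq_nil_iff] at h
    rcases h with h | h
    · exact hi0 h
    · subst h
      simp at hi
      exact hi0 hi
  · intro h; simp at h

lemma tm_conv (a : α) (m f : List α → ℤ) : tm a (conv m f) = conv (tm a m) f := by
  funext w
  cases w with
  | nil => simp [tm, conv]
  | cons b w =>
    simp only [tm, conv, List.length_cons]
    rw [Finset.sum_range_succ' _ (w.length + 1), Finset.sum_range_succ' _ (w.length + 1)]
    simp only [List.take_succ_cons, List.drop_succ_cons, List.take_zero, List.drop_zero, tm]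
    split_ifs with h
    · simp only [add_mul, Finset.sum_add_distrib]; ring
    · simp only [add_zero]

lemma T_conv (g : FreeGroup α) : ∀ m f : List α → ℤ, T g (conv m f) = conv (T g m) f := by
  induction g using FreeGroup.induction_on with
  | C1 => intro m f; simp
  | of a => intro m f; simp only [T, FreeGroup.lift_apply_of, te_apply]; exact tm_conv a m f
  | inv_of a ih =>
    intro m f
    rw [map_inv]
    apply (T (FreeGroup.of a)).injective
    rw [ais, ih, ais]
  | mul x y hx hy => intro m f; rw [map_mul, Equiv.Perm.mul_apply, Equiv.Perm.mul_apply, hy, hx]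

noncomputable def mg (g : FreeGroup α) : List α → ℤ := T g delta

lemma mg_one : mg (1 : FreeGroup α) = delta := by simp [mg]

lemma mg_mul (g h : FreeGroup α) : mg (g * h) = conv (mg g) (mg h) := by
  unfold mg
  rw [map_mul, Equiv.Perm.mul_apply, ← T_conv, conv_delta]

lemma T_nil (g : FreeGroup α) : ∀ f : List α → ℤ, (T g f) [] = f [] := by
  induction g using FreeGroup.induction_on with
  | C1 => intro f; simp
  | of a => intro f; simp only [T, FreeGroup.lift_apply_of, te_apply, tm]
  | inv_of a ih =>
    intro f
    have h := ih ((T (FreeGroup.of a))⁻¹ f)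
    rw [ais] at h
    rw [map_inv]; exact h.symm
  | mul x y hx hy => intro f; rw [map_mul, Equiv.Perm.mul_apply, hx, hy]

lemma mg_nil (g : FreeGroup α) : mg g [] = 1 := by
  unfold mg; rw [T_nil]; rfl

/-- does not start with `a` -/
def NoHead (a : α) (w : List α) : Prop := ∀ v, w ≠ a :: v

lemma te_zpow (a : α) (e : ℤ) : ∀ f : List α → ℤ,
    (∀ w, NoHead a w → (te a ^ e) f w = f w) ∧
    (∀ w, NoHead a w → (te a ^ e) f (a :: w) = f (a :: w) + e * f w) := by
  have hpos : ∀ f : List α → ℤ, (∀ w, NoHead a w → te a f w = f w) ∧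
      (∀ w, NoHead a w → te a f (a :: w) = f (a :: w) + f w) := by
    intro f
    constructor
    · intro w hw
      cases w with
      | nil => rfl
      | cons b w =>
        rw [te_apply, tm]
        have : b ≠ a := by
          intro h; subst h; exact hw w rfl
        simp [this]
    · intro w _
      rw [te_apply, tm]; simp
  induction e using Int.induction_on with
  | zero => intro f; simp
  | succ i ih =>
    intro f
    rw [zpow_add_one]
    simp only [Equiv.Perm.mul_apply]
    obtain ⟨h1, h2⟩ := ih (te a f)
    obtain ⟨h3, h4⟩ := hpos f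
    constructor
    · intro w hw; rw [h1 w hw, h3 w hw]
    · intro w hw; rw [h2 w hw, h3 w hw, h4 w hw]; push_cast; ring
  | pred i ih =>
    intro f
    rw [zpow_sub_one]
    simp only [Equiv.Perm.mul_apply]
    obtain ⟨h1, h2⟩ := ih ((te a)⁻¹ f)
    obtain ⟨h3, h4⟩ := hpos ((te a)⁻¹ f)
    rw [ais] at h3 h4
    constructor
    · intro w hw; rw [h1 w hw, ← h3 w hw]
    · intro w hw
      rw [h2 w hw, h4 w hw, ← h3 w hw]; push_cast; ring

lemma word_eval : ∀ l : List (α × ℤ), l.IsChain (fun p q => p.1 ≠ q.1) →
    ((l.map (fun p => te p.1 ^ p.2)).prod delta (l.map Prod.fst) = (l.map Prod.snd).prod) ∧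
    (∀ w : List α, w.IsChain (· ≠ ·) → l.length < w.length →
      (l.map (fun p => te p.1 ^ p.2)).prod delta w = 0) := by
  intro l
  induction l with
  | nil =>
    intro _
    refine ⟨by simp [delta], ?_⟩
    intro w _ hw
    simp only [List.map_nil, List.prod_nil, Equiv.Perm.one_apply]
    apply delta_ne
    intro h; subst h; simp at hw
  | cons p l ih =>
    intro hc
    obtain ⟨ih1, ih2⟩ := ih hc.tail
    obtain ⟨a, e⟩ := p
    simp only [List.map_cons, List.prod_cons, Equiv.Perm.mul_apply]
    set F := (l.map (fun p => te p.1 ^ p.2)).prod delta with hF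
    obtain ⟨h1, h2⟩ := te_zpow a e F
    have hnh : NoHead a (l.map Prod.fst) := by
      intro v hv
      cases l with
      | nil => simp at hv
      | cons q l =>
        simp only [List.map_cons, List.cons.injEq] at hv
        have := (List.isChain_cons_cons.mp hc).1
        exact this hv.1.symm
    constructor
    · rw [h2 _ hnh, ih1]
      have hch : (a :: l.map Prod.fst).IsChain (· ≠ ·) := by
        have := List.isChain_map_of_isChain (R := fun p q : α × ℤ => p.1 ≠ q.1) (S := fun x y : α => x ≠ y) Prod.fst (fun _ _ h => h) hc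
        simpa using this
      rw [ih2 _ hch (by simp)]
      ring
    · intro w hw hlen
      cases w with
      | nil => simp at hlen
      | cons c w =>
        have hlen' : l.length < w.length := by simpa using hlen
        by_cases hca : c = a
        · subst hca
          have hn : NoHead c w := by
            intro v hv
            subst hv
            exact (List.isChain_cons_cons.mp hw).1 rfl
          have hwt : w.IsChain (· ≠ ·) := hw.tail
          rw [h2 _ hn, ih2 _ hw (by simp; omega), ih2 _ hwt hlen']
          ring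
        · have hn : NoHead a (c :: w) := by
            intro v hv
            simp only [List.cons.injEq] at hv
            exact hca hv.1
          rw [h1 _ hn]
          exact ih2 _ hw (by simp; omega)

/-- free groups and free products of infinite cyclic groups -/
lemma exists_word (g : FreeGroup α) (hg : g ≠ 1) : ∃ l : List (α × ℤ), l ≠ [] ∧
    l.IsChain (fun p q => p.1 ≠ q.1) ∧ (∀ p ∈ l, p.2 ≠ 0) ∧
    T g = (l.map (fun p => te p.1 ^ p.2)).prod := by
  let X := Monoid.CoprodI (fun _ : α => Multiplicative ℤ)
  let φ : FreeGroup α →* X := FreeGroup.lift (fun i => Monoid.CoprodI.of (i := i) (Multiplicative.ofAdd (1 : ℤ)))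
  let ψ : X →* FreeGroup α := Monoid.CoprodI.lift (fun i => zpowersHom (FreeGroup α) (FreeGroup.of i))
  have hψφ : ∀ x, ψ (φ x) = x := by
    intro x
    have : ψ.comp φ = MonoidHom.id _ := by
      apply FreeGroup.ext_hom
      intro i
      rw [MonoidHom.comp_apply]
      simp only [φ, ψ]
      rw [FreeGroup.lift_apply_of]
      erw [Monoid.CoprodI.lift_of]
    exact DFunLike.congr_fun this x
  let τ : X →* Equiv.Perm (List α → ℤ) := Monoid.CoprodI.lift (fun i => zpowersHom _ (te i))
  have hτφ : ∀ x, τ (φ x) = T x := by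
    intro x
    have : τ.comp φ = T := by
      apply FreeGroup.ext_hom
      intro i
      rw [MonoidHom.comp_apply]
      simp only [φ, τ, T]
      rw [FreeGroup.lift_apply_of, FreeGroup.lift_apply_of]
      erw [Monoid.CoprodI.lift_of]
      simp
    exact DFunLike.congr_fun this x
  have h1 : φ g ≠ 1 := by
    intro h
    apply hg
    rw [← hψφ g, h, map_one]
  set w := Monoid.CoprodI.Word.equiv (φ g) with hw
  have hwp : w.prod = φ g := by
    rw [hw]
    exact Monoid.CoprodI.Word.equiv.symm_apply_apply (φ g)
  refine ⟨w.toList.map (fun l => (l.1, (Multiplicative.toAdd l.2 : ℤ))), ?_, ?_, ?_, ?_⟩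
  · intro h
    rw [List.map_eq_nil_iff] at h
    apply h1
    rw [← hwp, Monoid.CoprodI.Word.prod, h]
    simp
  · rw [List.isChain_map]
    exact w.chain_ne
  · intro p hp
    rw [List.mem_map] at hp
    obtain ⟨l, hl, rfl⟩ := hp
    intro h
    exact w.ne_one l hl (by simpa using h)
  · rw [← hτφ, ← hwp, Monoid.CoprodI.Word.prod, map_list_prod, List.map_map, List.map_map]
    congr 1

lemma exists_ne (g : FreeGroup α) (hg : g ≠ 1) : ∃ w, w ≠ [] ∧ mg g w ≠ 0 := by
  obtain ⟨l, h1, h2, h3, h4⟩ := exists_word g hg
  refine ⟨l.map Prod.fst, by simpa using h1, ?_⟩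
  unfold mg
  rw [h4, (word_eval l h2).1]
  apply List.prod_ne_zero
  intro h
  rw [List.mem_map] at h
  obtain ⟨p, hp, h0⟩ := h
  exact h3 p hp h0

/-- the well order on words -/
def rr (v w : List α) : Prop := v.length < w.length ∨ (v.length = w.length ∧ WellOrderingRel v w)

lemma rr_wf : WellFounded (rr : List α → List α → Prop) := by
  have h : WellFounded (Prod.Lex (· < ·) WellOrderingRel : ℕ × List α → ℕ × List α → Prop) :=
    WellFounded.prod_lex wellFounded_lt (IsWellFounded.wf)
  refine Subrelation.wf ?_ (InvImage.wf (fun w : List α => (w.length, w)) h)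
  intro v w hvw
  rcases hvw with hvw | ⟨h1, h2⟩
  · exact Prod.Lex.left _ _ hvw
  · change Prod.Lex _ _ (v.length, v) (w.length, w)
    rw [h1]
    exact Prod.Lex.right _ h2

lemma rr_tri (v w : List α) : rr v w ∨ v = w ∨ rr w v := by
  rcases lt_trichotomy v.length w.length with h | h | h
  · exact Or.inl (Or.inl h)
  · rcases trichotomous_of (WellOrderingRel : List α → List α → Prop) v w with h2 | h2 | h2
    · exact Or.inl (Or.inr ⟨h, h2⟩)
    · exact Or.inr (Or.inl h2)
    · exact Or.inr (Or.inr (Or.inr ⟨h.symm, h2⟩))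
  · exact Or.inr (Or.inr (Or.inl h))

lemma rr_trans {u v w : List α} (h1 : rr u v) (h2 : rr v w) : rr u w := by
  rcases h1 with h1 | ⟨h1, h1'⟩ <;> rcases h2 with h2 | ⟨h2, h2'⟩
  · left; omega
  · left; omega
  · left; omega
  · right; exact ⟨h1.trans h2, _root_.trans h1' h2'⟩

/-- vanishing below `w` -/
def Van (w : List α) (e : List α → ℤ) : Prop := ∀ v, rr v w → e v = 0

lemma conv_left {w : List α} {e : List α → ℤ} (he : Van w e) (k : List α → ℤ) (v : List α)
    (hv : rr v w ∨ v = w) : conv e k v = e v * k [] := by
  unfold conv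
  rw [Finset.sum_range_succ]
  have h0 : ∑ i ∈ Finset.range v.length, e (v.take i) * k (v.drop i) = 0 := by
    apply Finset.sum_eq_zero
    intro i hi
    rw [Finset.mem_range] at hi
    have : rr (v.take i) w := by
      have h1 : rr (v.take i) v := Or.inl (by rw [List.length_take]; omega)
      rcases hv with hv | rfl
      · exact rr_trans h1 hv
      · exact h1
    rw [he _ this, zero_mul]
  rw [h0, zero_add]
  simp

lemma conv_right {w : List α} {e : List α → ℤ} (he : Van w e) (k : List α → ℤ) (v : List α)
    (hv : rr v w ∨ v = w) : conv k e v = k [] * e v := by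
  unfold conv
  rw [Finset.sum_range_succ']
  have h0 : ∑ i ∈ Finset.range v.length, k (v.take (i+1)) * e (v.drop (i+1)) = 0 := by
    apply Finset.sum_eq_zero
    intro i hi
    rw [Finset.mem_range] at hi
    have : rr (v.drop (i+1)) w := by
      have h1 : rr (v.drop (i+1)) v := Or.inl (by rw [List.length_drop]; omega)
      rcases hv with hv | rfl
      · exact rr_trans h1 hv
      · exact h1
    rw [he _ this, mul_zero]
  rw [h0, zero_add]
  simp

lemma conv_add_left (m m' f : List α → ℤ) : conv (m + m') f = conv m f + conv m' f := by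
  funext w
  simp [conv, add_mul, Finset.sum_add_distrib]

lemma conv_add_right (m f f' : List α → ℤ) : conv m (f + f') = conv m f + conv m f' := by
  funext w
  simp [conv, mul_add, Finset.sum_add_distrib]

/-- the augmentation part -/
noncomputable def au (g : FreeGroup α) : List α → ℤ := mg g - delta

lemma mg_eq (g : FreeGroup α) : mg g = delta + au g := by unfold au; ring

lemma au_nil (g : FreeGroup α) : au g [] = 0 := by
  simp [au, mg_nil, delta_nil]

lemma conv_delta_right (f : List α → ℤ) : conv f delta = f := by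
  funext w
  unfold conv
  rw [Finset.sum_eq_single w.length]
  · simp [delta]
  · intro i hi hi0
    rw [Finset.mem_range] at hi
    rw [delta_ne, mul_zero]
    intro h
    rw [List.drop_eq_nil_iff] at h
    omega
  · intro h; simp at h

lemma au_mul (g h : FreeGroup α) : au (g * h) = au g + au h + conv (au g) (au h) := by
  have h1 := mg_mul g h
  rw [mg_eq g, mg_eq h, conv_add_left, conv_add_right, conv_add_right, conv_delta, conv_delta,
    conv_delta_right, mg_eq (g * h)] at h1
  have h2 : delta + au (g * h) = delta + (au g + au h + conv (au g) (au h)) := by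
    rw [h1]; ring
  exact add_left_cancel h2

lemma au_mul_apply {g h : FreeGroup α} {w : List α} (hg : Van w (au g)) (v : List α)
    (hv : rr v w ∨ v = w) : au (g * h) v = au g v + au h v := by
  rw [au_mul]
  simp only [Pi.add_apply]
  rw [conv_left hg _ v hv, au_nil, mul_zero, add_zero]

/-- the positive cone -/
def PP (α : Type) : Set (FreeGroup α) := {g | ∃ w, Van w (au g) ∧ 0 < au g w}

lemma van_mono {v w : List α} {e : List α → ℤ} (h : Van w e) (hv : rr v w ∨ v = w) : Van v e := by
  intro u hu
  apply h
  rcases hv with hv | rfl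
  · exact rr_trans hu hv
  · exact hu

theorem free_cone (α : Type) : ∃ P : Set (FreeGroup α),
    (∀ a ∈ P, ∀ b ∈ P, a * b ∈ P) ∧ (1 : FreeGroup α) ∉ P ∧
    (∀ g : FreeGroup α, g ≠ 1 → g ∈ P ∨ g⁻¹ ∈ P) ∧
    (∀ g : FreeGroup α, ∀ a ∈ P, g * a * g⁻¹ ∈ P) := by
  refine ⟨PP α, ?_, ?_, ?_, ?_⟩
  · rintro g ⟨w, hw, hw'⟩ h ⟨u, hu, hu'⟩
    rcases rr_tri w u with h1 | h1 | h1
    · refine ⟨w, ?_, ?_⟩
      · intro v hv
        rw [au_mul_apply hw v (Or.inl hv), hw v hv, hu v (rr_trans hv h1), add_zero]
      · rw [au_mul_apply hw w (Or.inr rfl), hu w h1, add_zero]; exact hw'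
    · subst h1
      refine ⟨w, ?_, ?_⟩
      · intro v hv
        rw [au_mul_apply hw v (Or.inl hv), hw v hv, hu v hv, add_zero]
      · rw [au_mul_apply hw w (Or.inr rfl)]; exact add_pos hw' hu'
    · have hwu : Van u (au g) := van_mono hw (Or.inl h1)
      refine ⟨u, ?_, ?_⟩
      · intro v hv
        rw [au_mul_apply hwu v (Or.inl hv), hwu v hv, hu v hv, add_zero]
      · rw [au_mul_apply hwu u (Or.inr rfl), hw u h1, zero_add]; exact hu'
  · rintro ⟨w, _, hw⟩
    unfold au at hw
    rw [mg_one, sub_self] at hw
    exact lt_irrefl _ hw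
  · intro g hg
    obtain ⟨w0, hw0, hw0'⟩ := exists_ne g hg
    have hne : ∃ w, au g w ≠ 0 := ⟨w0, by
      unfold au
      rw [Pi.sub_apply, delta_ne hw0, sub_zero]; exact hw0'⟩
    obtain ⟨w, hw, hmin⟩ := rr_wf.has_min {w | au g w ≠ 0} hne
    have hvan : Van w (au g) := by
      intro v hv
      by_contra h
      exact hmin v h hv
    have hinv : ∀ v, (rr v w ∨ v = w) → au g v + au g⁻¹ v = 0 := by
      intro v hv
      rw [← au_mul_apply hvan v hv, mul_inv_cancel]
      unfold au
      rw [mg_one, sub_self]; rfl
    rcases lt_or_gt_of_ne hw with h | h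
    · right
      refine ⟨w, ?_, ?_⟩
      · intro v hv
        have := hinv v (Or.inl hv)
        rw [hvan v hv, zero_add] at this
        exact this
      · have := hinv w (Or.inr rfl)
        linarith
    · left; exact ⟨w, hvan, h⟩
  · rintro g a ⟨w, hw, hw'⟩
    have key : au (g * a * g⁻¹) = conv (mg g) (conv (au a) (mg g⁻¹)) := by
      have h1 : mg (g * a * g⁻¹) = conv (mg g) (conv (mg a) (mg g⁻¹)) := by
        rw [mul_assoc, mg_mul, mg_mul]
      have h2 : delta = conv (mg g) (mg g⁻¹) := by
        rw [← mg_mul, mul_inv_cancel, mg_one]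
      rw [mg_eq a, conv_add_left, conv_delta, conv_add_right, ← h2, mg_eq (g * a * g⁻¹)] at h1
      exact add_left_cancel h1
    have h3 : ∀ v, (rr v w ∨ v = w) → conv (au a) (mg g⁻¹) v = au a v := by
      intro v hv
      rw [conv_left hw _ v hv, mg_nil, mul_one]
    have h4 : Van w (conv (au a) (mg g⁻¹)) := by
      intro v hv
      rw [h3 v (Or.inl hv)]; exact hw v hv
    have h5 : ∀ v, (rr v w ∨ v = w) → au (g * a * g⁻¹) v = au a v := by
      intro v hv
      rw [key, conv_right h4 _ v hv, mg_nil, one_mul, h3 v hv]
    refine ⟨w, ?_, ?_⟩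
    · intro v hv
      rw [h5 v (Or.inl hv)]; exact hw v hv
    · rw [h5 w (Or.inr rfl)]; exact hw'

end magnus

end Pool.Agent.Helper351.FO
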